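import Pool.Agent.Helper824.Lev.NilQ

set_option autoImplicit false

namespace Pool.Agent.Results.MP_2c0ed3_al.EngelRadicals

open Pool.Agent.Helper824.Lev

/-- Over every field there are an Engel Lie algebra `A` and an element `a` which lies in the locally
nilpotent radical of `A`, while the right multiplication by `a` does not lie in the locally
nilpotent radical of the multiplication algebra of `A`. -/
theorem result (F : Type) [Field F] : ∃ (A : Type) (_ : LieRing A) (_ : LieAlgebra F A),
    IsEngelLie A ∧ ∃ a : A, a ∈ lieRadical F A ∧
      rightMul F a ∉ assocRadical (multAlg F A) :=
  final F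

end Pool.Agent.Results.MP_2c0ed3_al.EngelRadicals
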